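import Pool.Agent.Helper69.ISO.Sheet
import Pool.Agent.Helper79.PN.Fin
import Pool.Agent.Helper81.PN.BLX

/-!
Rows B1, B3 of the project ISO (MP_7c9036_mp): relations at wheels and arcs.
-/

set_option autoImplicit false

open scoped Classical

namespace Pool.Agent.Helper99.ISO

open Pool.Agent.Helper79.PN Pool.Agent.Helper69.ISO

/-- small displacements -/
theorem mem_Bx (n : ℕ) (D : Lam) : D ∈ Bx n ↔ ∀ k, -(n : ℤ) ≤ D k ∧ D k ≤ n := by
  unfold Bx
  rw [Fintype.mem_piFinset]
  simp only [Finset.mem_Icc]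

theorem e_bd (i k : ZMod 5) : 0 ≤ e i k ∧ e i k ≤ 1 := by
  unfold e
  by_cases h : k = i
  · subst h; rw [Pi.single_eq_same]; norm_num
  · rw [Pi.single_eq_of_ne h]; norm_num

theorem near_le {P : Pen} {a : Lam → ℝ} {n m : ℕ} {c c' : Lam} {M : ℝ} (h : Near P a n c M)
    (hD : ∀ k, -((n : ℤ) - m) ≤ (c' - c) k ∧ (c' - c) k ≤ (n : ℤ) - m) : Near P a m c' M := by
  intro D hm
  rw [mem_Bx] at hm
  have h1 := h (c' - c + D) ((mem_Bx n _).2 fun k => ?_)
  · rw [show c + (c' - c + D) = c' + D by abel] at h1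
    exact h1
  · have h2 := hm k
    have h3 := hD k
    rw [Pi.add_apply]
    constructor <;> linarith [h2.1, h2.2, h3.1, h3.2]

/-- the relation at a vertex of degree 3 of index 2 -/
theorem tri2 {P : Pen} {a : Lam → ℝ} (hS : Sup P a) {c : Lam} {j : ZMod 5} (h : T2 P (c + e j) j) :
    rr P a (c + e j) = a c + a (rim c j) + a (rim c (j - 2)) := by
  have h1 := (fin_NB2 P _ _ h).2.2.2.2.2.2 a hS
  have hT : IsT P (c + e j) := ⟨j, Or.inr (Or.inl h)⟩
  unfold rr rim
  rw [if_pos hT, h1, show c + e j - e j = c by abel, show j - 2 + 2 = j by ring,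
    show c + e j + e (j - 2) = c + e (j - 2) + e j by abel]

/-- the relation at a vertex of degree 3 of index 4 -/
theorem tri4 {P : Pen} {a : Lam → ℝ} (hS : Sup P a) {w : Lam} {k : ZMod 5}
    (h : T1 P.mir (-w) k) :
    rr P a w = a (w - e k) + a (w - e (k + 1)) + a (w - e (k - 1)) := by
  have h1 := (st_NB1 P.mir _ _ h).2.2.2.2.2.2 (ng a) (Pool.Agent.Helper81.PN.sup_ng P a hS)
  rw [tt_adj_ng] at h1
  have hT : IsT P w := ⟨k, Or.inr (Or.inr (Or.inr h))⟩
  unfold rr
  rw [if_pos hT, h1]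
  unfold ng
  rw [neg_add, neg_neg, neg_add, neg_neg, neg_add, neg_neg, ← sub_eq_add_neg, ← sub_eq_add_neg,
    ← sub_eq_add_neg]

/-- the neighbours of a wheel have degree 3 -/
theorem wh_T2 {P : Pen} {c : Lam} (h : Wh P c) (j : ZMod 5) : T2 P (c + e j) j := by
  obtain ⟨hn, hv, hw⟩ := h
  have hv' := (inv1 hn).1 hv
  obtain ⟨s0, s1, s4, s2, s3⟩ := P.stp c j
  have hg1 := g_gt
  have hg2 := g_lt
  have hn2 : P.n (c + e j) = 2 := by rw [P.n_add, hn]; norm_num
  refine ⟨hn2, (inv2 hn2).2 ?_, ?_, ?_⟩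
  · intro k
    rcases cas5 j k with hk | hk | hk | hk | hk <;> rw [hk]
    · rw [s0]; linarith [hw j]
    · rw [s1]; linarith [hw (j + 1)]
    · rw [s4]; linarith [hw (j - 1)]
    · rw [s2]; linarith [hw (j + 2)]
    · rw [s3]; linarith [hw (j - 2)]
  · rw [s2]; linarith [hw (j + 2)]
  · rw [s3]; linarith [hw (j - 2)]

theorem B1 : ST_B1 := by
  intro P a c M hS hW hN j
  have hr : ∀ i, |a c + a (rim c i) + a (rim c (i - 2))| ≤ M := by
    intro i
    rw [← tri2 hS (wh_T2 hW i)]
    refine hN (e i) ((mem_Bx 1 _).2 fun k => ?_)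
    have := e_bd i k
    constructor <;> push_cast <;> linarith [this.1, this.2]
  have hM : 0 ≤ M := (abs_nonneg _).trans (hr 0)
  -- neighbouring rims
  have hd : ∀ i, |a (rim c i) - a (rim c (i + 1))| ≤ 2 * M := by
    intro i
    -- i = (i - 2) + 2, i + 1 = (i - 2) - 2
    have h1 := abs_le.1 (hr i)
    have h2 := abs_le.1 (hr (i - 2))
    rw [m2m2] at h2
    rw [abs_le]
    constructor <;> linarith [h1.1, h1.2, h2.1, h2.2]
  have h1 := abs_le.1 (hr j)
  have h2 := abs_le.1 (hd (j - 2))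
  have h3 := abs_le.1 (hd (j - 1))
  rw [m2p1] at h2
  rw [m1p1] at h3
  rw [abs_le]
  constructor <;> linarith [h1.1, h1.2, h2.1, h2.2, h3.1, h3.2]

/-- the vertices of degree 3 next to a hub of degree 4 -/
theorem x1_T2 {P : Pen} {c : Lam} {m : ZMod 5} (h : X1 P c m) :
    T2 P (c + e (m + 1)) (m + 1) ∧ T2 P (c + e (m - 1)) (m - 1) :=
  ⟨(Pool.Agent.Helper61.PN.st_POS P c m h).1, (Pool.Agent.Helper61.PN.st_POS P c m h).2.1⟩

theorem hb_bd (z : Lam) (i k : ZMod 5) : -2 ≤ (hb z i - z) k ∧ (hb z i - z) k ≤ 1 := by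
  have h1 := e_bd i k
  have h2 := e_bd (i + 1) k
  have h3 := e_bd (i - 1) k
  unfold hb
  simp only [Pi.sub_apply, Pi.add_apply]
  constructor <;> linarith [h1.1, h1.2, h2.1, h2.2, h3.1, h3.2]

theorem B3 : ST_B3 := by
  intro P a z m M hS hA hN
  obtain ⟨hX, hW1, hW2, hT1, hT2⟩ := hA
  obtain ⟨t1, t2⟩ := x1_T2 hX
  -- wheels
  have n1 : Near P a 1 (hb z (m + 2)) M := near_le hN fun k => by
    have := hb_bd z (m + 2) k
    constructor <;> push_cast <;> linarith [this.1, this.2]
  have n2 : Near P a 1 (hb z (m - 2)) M := near_le hN fun k => by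
    have := hb_bd z (m - 2) k
    constructor <;> push_cast <;> linarith [this.1, this.2]
  have b1 := B1 P a _ M hS hW1 n1 (m + 1)
  have b2 := B1 P a _ M hS hW1 n1 (m + 3)
  have b3 := B1 P a _ M hS hW2 n2 (m - 3)
  have b4 := B1 P a _ M hS hW2 n2 m
  have h5 : (5 : ZMod 5) = 0 := rfl
  have e1 : rim (hb z (m + 2)) (m + 1) = pv z (m + 2) := by
    unfold rim hb pv
    rw [show m + 2 + 1 = m + 3 by ring, show m + 2 - 1 = m + 1 by ring,
      show m + 1 + 2 = m + 3 by ring]
    abel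
  have e2 : rim (hb z (m + 2)) (m + 3) = qv z (m + 1) := by
    unfold rim hb qv
    rw [show m + 2 + 1 = m + 3 by ring, show m + 2 - 1 = m + 1 by ring,
      show m + 3 + 2 = m by linear_combination h5, show m + 1 - 1 = m by ring,
      show m + 1 + 1 = m + 2 by ring]
    abel
  have e3 : rim (hb z (m - 2)) (m - 3) = pv z (m - 2) := by
    unfold rim hb pv
    rw [show m - 2 + 1 = m - 1 by ring, show m - 2 - 1 = m - 3 by ring,
      show m - 3 + 2 = m - 1 by ring]
    abel
  have e4 : rim (hb z (m - 2)) m = qv z (m - 1) := by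
    unfold rim hb qv
    rw [show m - 2 + 1 = m - 1 by ring, show m - 2 - 1 = m + 2 by linear_combination -h5,
      show m - 1 - 1 = m - 2 by ring, show m - 1 + 1 = m by ring]
    abel
  rw [e1] at b1
  rw [e2] at b2
  rw [e3] at b3
  rw [e4] at b4
  -- vertices of index 4
  have c1 : |a (pv z m) + a (pv z (m + 2)) + a (qv z (m + 1))| ≤ M := by
    have h1 := tri4 hS hT1
    have f1 : z + e m + e (m + 2) - e (m + 1) = qv z (m + 1) := by
      unfold qv
      rw [show m + 1 - 1 = m by ring, show m + 1 + 1 = m + 2 by ring]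
    have f2 : z + e m + e (m + 2) - e (m + 1 + 1) = pv z m := by
      unfold pv
      rw [show m + 1 + 1 = m + 2 by ring]
      abel
    have f3 : z + e m + e (m + 2) - e (m + 1 - 1) = pv z (m + 2) := by
      unfold pv
      rw [show m + 1 - 1 = m by ring]
      abel
    rw [f1, f2, f3] at h1
    have h2 := hN (e m + e (m + 2)) ((mem_Bx 3 _).2 fun k => by
      have h3 := e_bd m k
      have h4 := e_bd (m + 2) k
      rw [Pi.add_apply]
      constructor <;> push_cast <;> linarith [h3.1, h3.2, h4.1, h4.2])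
    rw [← add_assoc, h1] at h2
    rw [show a (pv z m) + a (pv z (m + 2)) + a (qv z (m + 1)) =
      a (qv z (m + 1)) + a (pv z m) + a (pv z (m + 2)) by ring]
    exact h2
  have c2 : |a (pv z m) + a (pv z (m - 2)) + a (qv z (m - 1))| ≤ M := by
    have h1 := tri4 hS hT2
    have f1 : z + e m + e (m - 2) - e (m - 1) = qv z (m - 1) := by
      unfold qv
      rw [show m - 1 - 1 = m - 2 by ring, show m - 1 + 1 = m by ring]
      abel
    have f2 : z + e m + e (m - 2) - e (m - 1 + 1) = pv z (m - 2) := by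
      unfold pv
      rw [show m - 1 + 1 = m by ring]
      abel
    have f3 : z + e m + e (m - 2) - e (m - 1 - 1) = pv z m := by
      unfold pv
      rw [show m - 1 - 1 = m - 2 by ring]
      abel
    rw [f1, f2, f3] at h1
    have h2 := hN (e m + e (m - 2)) ((mem_Bx 3 _).2 fun k => by
      have h3 := e_bd m k
      have h4 := e_bd (m - 2) k
      rw [Pi.add_apply]
      constructor <;> push_cast <;> linarith [h3.1, h3.2, h4.1, h4.2])
    rw [← add_assoc, h1] at h2
    rw [show a (pv z m) + a (pv z (m - 2)) + a (qv z (m - 1)) =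
      a (qv z (m - 1)) + a (pv z (m - 2)) + a (pv z m) by ring]
    exact h2
  -- the hub of degree 4
  have d1 : |a (hb z m) + a (qv z (m - 1)) + a (pv z m)| ≤ M := by
    have h1 := tri2 hS t1
    have f1 : rim (hb z m) (m + 1) = qv z (m - 1) := by
      unfold rim hb qv
      rw [show m + 1 + 2 = m - 2 by linear_combination h5, show m - 1 - 1 = m - 2 by ring,
        show m - 1 + 1 = m by ring]
      abel
    have f2 : rim (hb z m) (m + 1 - 2) = pv z m := by
      unfold rim hb pv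
      rw [show m + 1 - 2 + 2 = m + 1 by ring, show m + 1 - 2 = m - 1 by ring]
      abel
    rw [f1, f2] at h1
    have h2 := hN (e m - e (m - 1)) ((mem_Bx 3 _).2 fun k => by
      have h3 := e_bd m k
      have h4 := e_bd (m - 1) k
      rw [Pi.sub_apply]
      constructor <;> push_cast <;> linarith [h3.1, h3.2, h4.1, h4.2])
    have h3 : hb z m + e (m + 1) = z + (e m - e (m - 1)) := by
      unfold hb; abel
    rw [← h3, h1] at h2
    exact h2
  have x1 := abs_le.1 b1
  have x2 := abs_le.1 b2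
  have x3 := abs_le.1 b3
  have x4 := abs_le.1 b4
  have y1 := abs_le.1 c1
  have y2 := abs_le.1 c2
  have y3 := abs_le.1 d1
  have hM : 0 ≤ M := (abs_nonneg _).trans c1
  refine ⟨?_, ?_, ?_, ?_, ?_⟩ <;> rw [abs_le] <;> constructor <;>
    linarith [x1.1, x1.2, x2.1, x2.2, x3.1, x3.2, x4.1, x4.2, y1.1, y1.2, y2.1, y2.2, y3.1, y3.2]

end Pool.Agent.Helper99.ISO
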