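import Pool.Agent.Helper69.ISO.Sheet
import Pool.Agent.Helper79.PN.Lem

/-!
Rows G6, G7 of the project ISO (MP_7c9036_mp): wheels with outer directions.
-/

set_option autoImplicit false

open scoped Classical

namespace Pool.Agent.Helper99.ISO

open Pool.Agent.Helper79.PN Pool.Agent.Helper69.ISO

/-- the coordinates after the step from a hub to the centre of a ring -/
theorem shr (P : Pen) (c : Lam) (m : ZMod 5) :
    P.h (c - e m + e (m + 1) + e (m - 1)) m = P.h c m - (2 - g) ∧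
    P.h (c - e m + e (m + 1) + e (m - 1)) (m + 1) = P.h c (m + 1) + (3 - 2 * g) / 2 ∧
    P.h (c - e m + e (m + 1) + e (m - 1)) (m - 1) = P.h c (m - 1) + (3 - 2 * g) / 2 ∧
    P.h (c - e m + e (m + 1) + e (m - 1)) (m + 2) = P.h c (m + 2) + (g - 1) / 2 ∧
    P.h (c - e m + e (m + 1) + e (m - 1)) (m - 2) = P.h c (m - 2) + (g - 1) / 2 := by
  obtain ⟨a0, a1, a4, a2, a3⟩ := P.stp c m
  obtain ⟨b0, b1, b4, b2, b3⟩ := P.stp1 (c - e m) m
  obtain ⟨d0, d1, d4, d2, d3⟩ := P.stp4 (c - e m + e (m + 1)) m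
  have s0 := P.h_sub_add c m m
  have s1 := P.h_sub_add c m (m + 1)
  have s4 := P.h_sub_add c m (m - 1)
  have s2 := P.h_sub_add c m (m + 2)
  have s3 := P.h_sub_add c m (m - 2)
  refine ⟨?_, ?_, ?_, ?_, ?_⟩ <;> linarith

/-- the coordinates of the hubs of a ring -/
theorem shh (P : Pen) (z : Lam) (k : ZMod 5) :
    P.h (hb z k) k = P.h z k + (2 - g) ∧
    P.h (hb z k) (k + 1) = P.h z (k + 1) - (3 - 2 * g) / 2 ∧
    P.h (hb z k) (k - 1) = P.h z (k - 1) - (3 - 2 * g) / 2 ∧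
    P.h (hb z k) (k + 2) = P.h z (k + 2) - (g - 1) / 2 ∧
    P.h (hb z k) (k - 2) = P.h z (k - 2) - (g - 1) / 2 := by
  have h0 : hb z k - e k + e (k + 1) + e (k - 1) = z := by
    unfold hb; abel
  obtain ⟨h1, h2, h3, h4, h5⟩ := shr P (hb z k) k
  rw [h0] at h1 h2 h3 h4 h5
  refine ⟨?_, ?_, ?_, ?_, ?_⟩ <;> linarith

theorem hb_n (P : Pen) (z : Lam) (k : ZMod 5) : P.n (hb z k) = P.n z - 1 := by
  unfold hb
  rw [P.n_sub, P.n_sub, P.n_add]
  ring

theorem G6 : ST_G6 := by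
  intro P c i hW h1 h2
  obtain ⟨hn, hv, hw⟩ := hW
  have hg1 := g_gt
  have hg2 := g_lt
  have hz : c - e (i + 2) + e (i + 1) + e (i + 3) =
      c - e (i + 2) + e (i + 2 + 1) + e (i + 2 - 1) := by
    rw [show i + 2 + 1 = i + 3 by ring, show i + 2 - 1 = i + 1 by ring]; abel
  obtain ⟨s0, s1, s4, s2, s3⟩ := shr P c (i + 2)
  rw [p2p2] at s2
  rw [p2m2] at s3
  rw [hz]
  refine ⟨?_, ?_⟩
  · rw [P.n_add, P.n_add, P.n_sub, hn]; norm_num
  · intro j
    rcases cas5 (i + 2) j with hj | hj | hj | hj | hj <;> rw [hj]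
    · rw [s0]; linarith [hw (i + 2)]
    · rw [s1]; linarith [hw (i + 2 + 1)]
    · rw [s4]; linarith [hw (i + 2 - 1)]
    · rw [p2p2, s2]; linarith
    · rw [p2m2, s3]; linarith

theorem G7 (hG5 : ST_G5) : ST_G7 := by
  intro P c i hW h1
  by_cases h2 : P.h c (i - 1) < (3 - 2 * g) / 2
  · exact Or.inl (G6 P c i hW h1 h2)
  push Not at h2
  obtain ⟨hn, hv, hw⟩ := hW
  have hg1 := g_gt
  have hg2 := g_lt
  have hs := g_sq
  set z := c - e (i + 2) + e (i + 1) + e (i + 3) with hz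
  have hz' : z = c - e (i + 2) + e (i + 2 + 1) + e (i + 2 - 1) := by
    rw [hz, show i + 2 + 1 = i + 3 by ring, show i + 2 - 1 = i + 1 by ring]; abel
  obtain ⟨s0, s1, s4, s2, s3⟩ := shr P c (i + 2)
  rw [← hz'] at s0 s1 s4 s2 s3
  rw [p2p2] at s2
  rw [p2m2] at s3
  rw [p2p1] at s1
  rw [p2m1] at s4
  obtain ⟨t0, t1, t4, t2, t3⟩ := shh P z (i - 1)
  rw [m1p1] at t1
  rw [m1m1] at t4
  rw [m1p2] at t2
  rw [m1m2] at t3
  have hzn : P.n z = 2 := by
    rw [hz, P.n_add, P.n_add, P.n_sub, hn]; norm_num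
  have hcn : P.n (hb z (i - 1)) = 1 := by rw [hb_n, hzn]; norm_num
  have hv' := (inv1 hn).1 hv
  -- lower bounds for the coordinates of the wheel
  have r1 := P.rel2 c (i + 1)
  rw [p1p2, p1m2] at r1
  have r2 := P.rel2 c i
  have q1 : -(g - 1) < g * P.h c (i + 1) := by linarith [hw (i - 2), hw (i - 1)]
  have q2 : g - 2 < P.h c (i + 1) := by
    have h3 := (gm q1).2
    have e3 : (g - 1) * (g * P.h c (i + 1)) = P.h c (i + 1) := by
      linear_combination (P.h c (i + 1)) * hs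
    have e4 : (g - 1) * -(g - 1) = g - 2 := by linear_combination -hs
    rw [e3, e4] at h3
    exact h3
  have q3 : g * P.h c i < (g - 2) / 2 := by
    have h3 := (gm h1).1
    have e3 : g * ((3 - 2 * g) / 2) = (g - 2) / 2 := by linear_combination -hs
    rw [e3] at h3
    exact h3
  have hX : X1 P (hb z (i - 1)) (i - 1) := by
    refine ⟨hcn, (inv1 hcn).2 ?_, ?_, ?_, ?_⟩
    · intro j
      rcases cas5 i j with hj | hj | hj | hj | hj <;> rw [hj]
      · rw [t1, s3]; linarith [hv' i]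
      · rw [t2, s4]; linarith
      · rw [t0, s2]; linarith [hv' (i - 1)]
      · rw [t3, s0]; linarith [hw (i - 2)]
      · rw [t4, s1]; linarith [hv' (i - 2)]
    · rw [t0, s2]; linarith
    · rw [m1p1, t1, s3]; linarith
    · rw [m1m1, t4, s1]; linarith [hw (i - 2)]
  have h3 := hG5 P (hb z (i - 1)) (i - 1) hX
  have h4 : hb z (i - 1) - e (i - 1) + e (i - 1 + 1) + e (i - 1 - 1) = z := by
    unfold hb; abel
  rwa [h4] at h3

end Pool.Agent.Helper99.ISO
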