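import Pool.Agent.Helper69.ISO.Sheet
import Pool.Agent.Helper79.PN.Lem

/-!
Rows G8, G9 of the project ISO (MP_7c9036_mp): wheels and points of index 4.
-/

set_option autoImplicit false

open scoped Classical

namespace Pool.Agent.Helper99.ISO

open Pool.Agent.Helper79.PN Pool.Agent.Helper69.ISO

/-- the coordinates after the step from a wheel to the point of index 4 -/
theorem sh4 (P : Pen) (c : Lam) (i : ZMod 5) :
    P.h (c - e i + e (i + 1) + e (i + 1) + e (i - 1) + e (i - 1)) i = P.h c i + (2 * g - 3) ∧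
    P.h (c - e i + e (i + 1) + e (i + 1) + e (i - 1) + e (i - 1)) (i + 1) =
      P.h c (i + 1) + (5 - 3 * g) / 2 ∧
    P.h (c - e i + e (i + 1) + e (i + 1) + e (i - 1) + e (i - 1)) (i - 1) =
      P.h c (i - 1) + (5 - 3 * g) / 2 ∧
    P.h (c - e i + e (i + 1) + e (i + 1) + e (i - 1) + e (i - 1)) (i + 2) =
      P.h c (i + 2) - (2 - g) / 2 ∧
    P.h (c - e i + e (i + 1) + e (i + 1) + e (i - 1) + e (i - 1)) (i - 2) =
      P.h c (i - 2) - (2 - g) / 2 := by
  obtain ⟨a0, a1, a4, a2, a3⟩ := P.stp c i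
  obtain ⟨b0, b1, b4, b2, b3⟩ := P.stp1 (c - e i) i
  obtain ⟨c0, c1, c4, c2, c3⟩ := P.stp1 (c - e i + e (i + 1)) i
  obtain ⟨d0, d1, d4, d2, d3⟩ := P.stp4 (c - e i + e (i + 1) + e (i + 1)) i
  obtain ⟨f0, f1, f4, f2, f3⟩ := P.stp4 (c - e i + e (i + 1) + e (i + 1) + e (i - 1)) i
  have s0 := P.h_sub_add c i i
  have s1 := P.h_sub_add c i (i + 1)
  have s4 := P.h_sub_add c i (i - 1)
  have s2 := P.h_sub_add c i (i + 2)
  have s3 := P.h_sub_add c i (i - 2)
  refine ⟨?_, ?_, ?_, ?_, ?_⟩ <;> linarith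

/-- the coordinates of the five wheels around a point of index 4 -/
theorem shv (P : Pen) (u : Lam) (j : ZMod 5) :
    P.h (vc u j) j = P.h u j - (2 * g - 3) ∧
    P.h (vc u j) (j + 1) = P.h u (j + 1) - (5 - 3 * g) / 2 ∧
    P.h (vc u j) (j - 1) = P.h u (j - 1) - (5 - 3 * g) / 2 ∧
    P.h (vc u j) (j + 2) = P.h u (j + 2) + (2 - g) / 2 ∧
    P.h (vc u j) (j - 2) = P.h u (j - 2) + (2 - g) / 2 := by
  have h0 : vc u j - e j + e (j + 1) + e (j + 1) + e (j - 1) + e (j - 1) = u := by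
    unfold vc; abel
  obtain ⟨h1, h2, h3, h4, h5⟩ := sh4 P (vc u j) j
  rw [h0] at h1 h2 h3 h4 h5
  refine ⟨?_, ?_, ?_, ?_, ?_⟩ <;> linarith

theorem vc_n (P : Pen) (u : Lam) (j : ZMod 5) : P.n (vc u j) = P.n u - 3 := by
  unfold vc
  rw [P.n_sub, P.n_sub, P.n_sub, P.n_sub, P.n_add]
  ring

theorem G8 : ST_G8 := by
  intro P c i hW h1 h2 h3
  obtain ⟨hn, hv, hw⟩ := hW
  obtain ⟨s0, s1, s4, s2, s3⟩ := sh4 P c i
  obtain ⟨r1, -⟩ := P.rel0 c i
  obtain ⟨-, q1⟩ := gm h1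
  have hs := g_sq
  have e1 : (g - 1) * ((3 - 2 * g) / 2) = (5 * g - 3) / 2 - g * g := by ring
  rw [e1] at q1
  refine ⟨?_, ?_⟩
  · rw [P.n_add, P.n_add, P.n_add, P.n_add, P.n_sub, hn]; norm_num
  · intro k
    rcases cas5 i k with hk | hk | hk | hk | hk <;> rw [hk]
    · rw [s0]; linarith
    · rw [s1]; linarith
    · rw [s4]; linarith
    · rw [s2]; linarith [hw (i + 2)]
    · rw [s3]; linarith [hw (i - 2)]

theorem G9 : ST_G9 := by
  intro P u hn hu j
  obtain ⟨s0, s1, s4, s2, s3⟩ := shv P u j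
  have hs := g_sq
  have hg1 := g_gt
  have hg2 := g_lt
  -- lower bounds
  have hlo : ∀ k, -0.2 < P.h u k := by
    intro k
    have h3 := P.rel2 u k
    have h1 := hu (k + 2)
    have h2 := hu (k - 2)
    have h4 : -(2 * g - 3) < g * P.h u k := by linarith
    have h5 : 2 * g - 3 < 0.2362 := by linarith
    by_contra hc
    push Not at hc
    nlinarith
  have hn1 : P.n (vc u j) = 1 := by rw [vc_n, hn]; norm_num
  refine ⟨⟨hn1, (inv1 hn1).2 ?_, ?_⟩, ?_, ?_, ?_⟩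
  · intro k
    rcases cas5 j k with hk | hk | hk | hk | hk <;> rw [hk]
    · rw [s0]; linarith [hlo j]
    · rw [s1]; linarith [hlo (j + 1)]
    · rw [s4]; linarith [hlo (j - 1)]
    · rw [s2]; linarith [hlo (j + 2)]
    · rw [s3]; linarith [hlo (j - 2)]
  · intro k
    rcases cas5 j k with hk | hk | hk | hk | hk <;> rw [hk]
    · rw [s0]; linarith [hu j]
    · rw [s1]; linarith [hu (j + 1)]
    · rw [s4]; linarith [hu (j - 1)]
    · rw [s2]; linarith [hu (j + 2)]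
    · rw [s3]; linarith [hu (j - 2)]
  · rw [s0]; linarith [hu j]
  · intro h; rw [s4]; linarith
  · intro h; rw [s1]; linarith

end Pool.Agent.Helper99.ISO
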